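import Mathlib
import Pool.Agent.H30.Bkr

namespace Pool.Agent.Results.MP_890654_pr.Distinct

open Set Pool.Agent.H30.Bkr

lemma rigid (r : ℕ) (D : ℕ × ℕ × ℕ → Prop) : ∀ (t t0 : Br) (o : ℕ), t.size = t0.size →
    o + t.size ≤ r → (∀ β, (lab t0 o).D β → D β) → xD r D ∈ (lab t o).E (GA r) → t = t0
  | .leaf, .leaf, _, _, _, _, _ => rfl
  | .leaf, .node a b, _, h, _, _, _ => by
    have := a.size_pos; have := b.size_pos; simp only [Br.size] at h; omega
  | .node a b, .leaf, _, h, _, _, _ => by
    have := a.size_pos; have := b.size_pos; simp only [Br.size] at h; omega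
  | .node a b, .node a0 b0, o, h, hr, hD, hx => by
    have := a.size_pos; have := b.size_pos; have := a0.size_pos; have := b0.size_pos
    simp only [Br.size] at h hr
    simp only [lab, LT.E] at hx
    have hs : a.size = a0.size := by
      by_contra hne
      rcases Nat.lt_or_gt_of_ne hne with hlt | hlt
      · refine P1 r D (o + a.size) o (o + a.size + b.size - 1) (by omega) (by omega) (by omega)
          (by omega) (by omega) (by omega) (hD _ ?_) ?_
        · simp only [lab, LT.D, lab_L]
          exact Or.inr (Or.inr (Or.inl (by omega)))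
        · rw [box_comm]
          exact box_mono (U1 _ _ _ (by rw [lab_L]; omega))
            (U2 _ _ _ (by omega) _ (by rw [lab_L]; omega) (by rw [lab_L]; omega)) hx
      · refine P1 r D (o + a0.size) (o + a.size + b.size - 1) o (by omega) (by omega) (by omega)
          (by omega) (by omega) (by omega) (hD _ ?_) ?_
        · simp only [lab, LT.D, lab_L]
          exact Or.inr (Or.inr (Or.inr (by omega)))
        · exact box_mono (U2 _ _ _ (by omega) _ (by rw [lab_L]; omega) (by rw [lab_L]; omega))
            (U1 _ _ _ (by rw [lab_L]; omega)) hx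
    rw [rigid r D a a0 o hs (by omega) (fun β h => hD β (Or.inl h)) (box_left _ _ hx),
      rigid r D b b0 (o + a.size) (by omega) (by omega)
        (fun β h => hD β (Or.inr (Or.inl (by rw [← hs]; exact h)))) (box_right _ _ hx)]

theorem result (r : ℕ) (hr : 3 ≤ r) : ∃ (S : Type) (_ : Nonempty S) (d : ℕ) (_ : 1 ≤ d)
    (A : ℕ → Set (Fin d → S)), ∀ t t' : Br, t.size = r → t'.size = r →
      t.ev A 0 = t'.ev A 0 → t = t' := by
  have : NeZero r := ⟨by omega⟩
  let e := Fintype.equivFin (I r)
  refine ⟨Bool, inferInstance, Fintype.card (I r), Fintype.card_pos,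
    fun n => pull e (GA r n), fun t t' ht ht' h => ?_⟩
  rw [ev_pull e e.injective, ev_pull e e.injective] at h
  have h2 := pull_inj e e.injective h
  have hx := P2 r (lab t' 0) (lab_good t' 0)
  rw [lab_E, ← h2, ← lab_E] at hx
  exact rigid r _ t t' 0 (ht.trans ht'.symm) (by omega) (fun _ h => h) hx

end Pool.Agent.Results.MP_890654_pr.Distinct
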